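import Pool.Agent.PFC.StmtsB3

/-!
# Squad PFC, row AUG: the augmentations (helper7)
-/

namespace Pool.Agent.PFC.H7

open MvPolynomial

/-- AUG -/
theorem aug : Pool.Agent.PFC.B3.AugStmt := by
  intro k I E Λ _ _ _ _ _ _ q p c η P θ hq
  obtain ⟨h, h1, h2⟩ := P.up k ((MvPolynomial.aeval (fun _ : I => (0 : k))) :
      MvPolynomial I k →ₐ[k] k).toRingHom ((Units.coeHom k).comp θ)
    (by
      intro i
      have h0 : q i ≠ 0 := by
        have := hq i
        omega
      simp [h0])
    (by
      intro e i
      simp)
    (by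
      intro e a
      exact mul_comm _ _)
  refine ⟨{ h with
    commutes' := ?_ }, ?_, ?_⟩
  · intro r
    have h3 : algebraMap k Λ r = P.j (C r) := by
      rw [← MvPolynomial.algebraMap_eq]
      exact (P.j.commutes r).symm
    change h (algebraMap k Λ r) = r
    rw [h3, h1]
    simp
  · intro i
    change h (P.j (X i)) = 0
    rw [h1]
    simp
  · intro e
    change h (P.ε e) = (θ e : k)
    rw [h2]
    rfl

end Pool.Agent.PFC.H7
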